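import Pool.Agent.Lib.MP_a6ff19_al.H17Main

set_option autoImplicit false

namespace Pool.Agent.Results.MP_a6ff19_al.ProductGD

open Pool.Agent.Lib.MP_a6ff19_al

/-- The direct product of two graphically discrete groups is graphically discrete. -/
theorem result (Γ Γ' : Type) [Group Γ] [Group Γ'] (h : GraphicallyDiscrete Γ)
    (h' : GraphicallyDiscrete Γ') : GraphicallyDiscrete (Γ × Γ') :=
  product_full Γ Γ' h h'

end Pool.Agent.Results.MP_a6ff19_al.ProductGD
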